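import Pool.Agent.H47.UG.Stab

/-!
# The lattices `Gr` and `GP` glue: the two localisations on the intersection of two charts agree
-/

set_option autoImplicit false

open MvPolynomial

namespace Pool.Agent.H47.UG.FF

variable {K : Type} [Field K] {n d : ℕ} {F : HP K n} (T : FF d F)

theorem sym_x_mem (i l : Fin (n + 2)) : T.x l / T.x i ∈ T.A i :=
  Algebra.subset_adjoin ⟨l, rfl⟩

theorem sym_A {i : Fin (n + 2)} (j : Fin (n + 2)) {a : T.L} (ha : a ∈ T.A i) :
    ∃ N : ℕ, (T.x i / T.x j) ^ N * a ∈ T.A j := by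
  have hw := T.sym_x_mem j i
  unfold A at ha
  induction ha using Algebra.adjoin_induction with
  | mem a ha =>
    obtain ⟨l, rfl⟩ := ha
    refine ⟨1, ?_⟩
    have h1 : (T.x i / T.x j) ^ 1 * (T.x l / T.x i) = T.x l / T.x j := by
      have h2 := T.x_ne i
      have h3 := T.x_ne j
      field_simp
    change _ * (T.x l / T.x i) ∈ _
    rw [h1]
    exact T.sym_x_mem j l
  | algebraMap c => exact ⟨0, by rw [pow_zero, one_mul]; exact (T.A j).algebraMap_mem c⟩
  | add a b _ _ h1 h2 =>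
    obtain ⟨N, h1⟩ := h1
    obtain ⟨M, h2⟩ := h2
    refine ⟨N + M, ?_⟩
    have h3 : (T.x i / T.x j) ^ (N + M) * (a + b) = (T.x i / T.x j) ^ M * ((T.x i / T.x j) ^ N * a) +
        (T.x i / T.x j) ^ N * ((T.x i / T.x j) ^ M * b) := by ring
    rw [h3]
    exact add_mem (mul_mem (pow_mem hw _) h1) (mul_mem (pow_mem hw _) h2)
  | mul a b _ _ h1 h2 =>
    obtain ⟨N, h1⟩ := h1
    obtain ⟨M, h2⟩ := h2
    refine ⟨N + M, ?_⟩
    have h3 : (T.x i / T.x j) ^ (N + M) * (a * b) = ((T.x i / T.x j) ^ N * a) *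
        ((T.x i / T.x j) ^ M * b) := by ring
    rw [h3]
    exact mul_mem h1 h2

/-- `x_i ^ e * a` is in `x_j ^ e * A_j` after multiplication with a power of `x_i / x_j`. -/
theorem sym_e (e : ℤ) {i : Fin (n + 2)} (j : Fin (n + 2)) {a : T.L} (ha : a ∈ T.A i) :
    ∃ N : ℕ, ∃ b ∈ T.A j, (T.x i / T.x j) ^ N * (T.x i ^ e * a) = T.x j ^ e * b := by
  obtain ⟨N, hN⟩ := T.sym_A j ha
  have hi := T.x_ne i
  have hj := T.x_ne j
  refine ⟨N + e.natAbs, (T.x i / T.x j) ^ (e.natAbs + e).toNat * ((T.x i / T.x j) ^ N * a),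
    mul_mem (pow_mem (T.sym_x_mem j i) _) hN, ?_⟩
  have h1 : (T.x i / T.x j) ^ (e.natAbs + e).toNat = (T.x i / T.x j) ^ e.natAbs *
      (T.x i / T.x j) ^ e := by
    have h2 : (0 : ℤ) ≤ e.natAbs + e := by omega
    rw [← zpow_natCast, Int.toNat_of_nonneg h2, zpow_add₀ (div_ne_zero hi hj), zpow_natCast]
  rw [h1, div_zpow, pow_add]
  have h3 : T.x j ^ e ≠ 0 := zpow_ne_zero _ hj
  field_simp

/-- A criterion. -/
theorem sym_of {V : Type} [AddCommGroup V] [Module T.L V] [Module K V] [IsScalarTower K T.L V]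
    {M : Lat (n := n) (K := K) V} (hst : T.Stable M)
    (h : ∀ i j, ∀ v ∈ M i, ∃ N : ℕ, (T.x i / T.x j) ^ N • v ∈ M j) : T.Sym M := by
  have key : ∀ i j, T.loc M i j ⊆ T.loc M j i := by
    rintro i j v ⟨N, hv⟩
    obtain ⟨N', h1⟩ := h i j _ hv
    refine ⟨N', ?_⟩
    have h2 := hst j _ (pow_mem (T.sym_x_mem j i) N) _ h1
    have h3 : (T.x i / T.x j) ^ N • (T.x i / T.x j) ^ N' • (T.x j / T.x i) ^ N • v =
        (T.x i / T.x j) ^ N' • v := by
      rw [smul_smul, smul_smul]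
      congr 1
      have hi := T.x_ne i
      have hj := T.x_ne j
      rw [mul_comm ((T.x i / T.x j) ^ N), mul_assoc, ← mul_pow]
      have h4 : T.x i / T.x j * (T.x j / T.x i) = 1 := by field_simp
      rw [h4, one_pow, mul_one]
    rwa [h3] at h2
  exact fun i j => Set.Subset.antisymm (key i j) (key j i)

/-! ### Products -/

theorem GG_mul {k : ℕ} {e e' : ℤ} {m m' q q' : ℕ} {i : Fin (n + 2)} {v w : T.BB}
    (hv : v ∈ T.GG k e m q i) (hw : w ∈ T.GG k e' m' q' i) :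
    v * w ∈ T.GG k (e + e') (m + m') (q + q') i := by
  unfold GG at hv hw ⊢
  have h1 := Submodule.mul_mem_mul hv hw
  rw [Submodule.span_mul_span] at h1
  refine Submodule.span_le.2 ?_ h1
  rintro _ ⟨_, ⟨a, ha, s, l, hs, rfl⟩, _, ⟨b, hb, s', l', hs', rfl⟩, rfl⟩
  refine Submodule.subset_span ⟨a * b, mul_mem ha hb, Fin.append s s', Fin.append l l', ?_, ?_⟩
  · rw [Fin.sum_univ_add]
    simp only [Fin.append_left, Fin.append_right]
    rw [hs, hs']
  · rw [Fin.prod_univ_add]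
    simp only [Fin.append_left, Fin.append_right]
    have h2 : T.x i ^ (e + e') * (a * b) = (T.x i ^ e * a) * (T.x i ^ e' * b) := by
      rw [zpow_add₀ (T.x_ne i)]
      ring
    have h3 : (C ((T.x i ^ e * a) * (T.x i ^ e' * b)) : T.BB) =
        C (T.x i ^ e * a) * C (T.x i ^ e' * b) := C_mul
    rw [h2, h3]
    exact mul_mul_mul_comm _ _ _ _

theorem GG_one (k : ℕ) (i : Fin (n + 2)) : (1 : T.BB) ∈ T.GG k 0 0 0 i := by
  refine Submodule.subset_span ⟨1, one_mem _, Fin.elim0, Fin.elim0, ?_, ?_⟩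
  · simp
  · simp

theorem GG_prod {k : ℕ} {i : Fin (n + 2)} : ∀ (q : ℕ) (s : Fin q → Fin k) (f : Fin q → T.BB),
    (∀ r, f r ∈ T.GG k 0 ((s r : ℕ) + 1) 1 i) →
      ∏ r, f r ∈ T.GG k 0 (∑ r, ((s r : ℕ) + 1)) q i
  | 0, s, f, _ => by
    simpa using T.GG_one k i
  | q + 1, s, f, h => by
    rw [Fin.prod_univ_castSucc, Fin.sum_univ_castSucc]
    have h1 := T.GG_mul (GG_prod q (fun r => s r.castSucc) (fun r => f r.castSucc)
      fun r => h r.castSucc) (h (Fin.last q))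
    rwa [add_zero] at h1

theorem GG_gen {k : ℕ} (s : Fin k) (i l : Fin (n + 2)) :
    T.δ s (T.x l / T.x i) ∈ T.GG k 0 ((s : ℕ) + 1) 1 i := by
  refine Submodule.subset_span ⟨1, one_mem _, fun _ => s, fun _ => l, ?_, ?_⟩
  · simp
  · simp

/-- The change of the chart for the symbols. -/
theorem sym_δ (s : ℕ) (i j l : Fin (n + 2)) :
    (T.x i / T.x j) ^ 2 • T.δ s (T.x l / T.x i) =
      (T.x i / T.x j) • T.δ s (T.x l / T.x j) - (T.x l / T.x j) • T.δ s (T.x i / T.x j) := by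
  have hi := T.x_ne i
  have hj := T.x_ne j
  have h1 : T.x l / T.x i = (T.x l / T.x j) / (T.x i / T.x j) := by field_simp
  have h0 : T.x i / T.x j ≠ 0 := div_ne_zero hi hj
  rw [h1]
  generalize T.x l / T.x j = v at *
  generalize T.x i / T.x j = w at *
  unfold δ
  rw [Finset.smul_sum, Finset.smul_sum, Finset.smul_sum, ← Finset.sum_sub_distrib]
  refine Finset.sum_congr rfl fun p _ => ?_
  rw [Derivation.leibniz_div]
  simp only [smul_eq_mul, Algebra.smul_def, algebraMap_eq, C_mul, C_sub, C_pow]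
  have h2 : (C w : T.BB) ^ 2 * (C w⁻¹) ^ 2 = 1 := by
    rw [← mul_pow, ← C_mul, mul_inv_cancel₀ h0, C_1, one_pow]
  linear_combination (C w * C (T.par p v) - C v * C (T.par p w)) * X (s, p) * h2

variable [CharZero K] (hF : Nice d F)

include hF

theorem GG_change (k : ℕ) (e : ℤ) (m q : ℕ) (i j : Fin (n + 2)) (v : T.BB)
    (hv : v ∈ T.GG k e m q i) : ∃ N : ℕ, (T.x i / T.x j) ^ N • v ∈ T.GG k e m q j := by
  have hw := T.sym_x_mem j i
  have hst := stable_GG T hF
  unfold GG at hv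
  induction hv using Submodule.span_induction with
  | mem v hv =>
    obtain ⟨a, ha, s, l, hs, rfl⟩ := hv
    obtain ⟨N, b, hb, hN⟩ := T.sym_e e j ha
    refine ⟨N + 2 * q, ?_⟩
    have h1 : ∏ r, ((T.x i / T.x j) ^ 2 • T.δ (s r) (T.x (l r) / T.x i)) ∈
        T.GG k 0 (∑ r, ((s r : ℕ) + 1)) q j := by
      refine T.GG_prod q s _ fun r => ?_
      rw [T.sym_δ]
      exact Submodule.sub_mem _ (hst k 0 _ 1 j _ hw _ (T.GG_gen (s r) j (l r)))
        (hst k 0 _ 1 j _ (T.sym_x_mem j (l r)) _ (T.GG_gen (s r) j i))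
    have h2 : C (T.x j ^ e * b) ∈ T.GG k e 0 0 j := by
      refine Submodule.subset_span ⟨b, hb, Fin.elim0, Fin.elim0, ?_, ?_⟩
      · simp
      · simp
    have h3 := T.GG_mul h2 h1
    rw [hs, add_zero, zero_add, zero_add, ← hN] at h3
    have h4 : (T.x i / T.x j) ^ (N + 2 * q) • (C (T.x i ^ e * a) *
        ∏ r, T.δ (s r) (T.x (l r) / T.x i)) = C ((T.x i / T.x j) ^ N * (T.x i ^ e * a)) *
        ∏ r, ((T.x i / T.x j) ^ 2 • T.δ (s r) (T.x (l r) / T.x i)) := by
      simp only [Algebra.smul_def, algebraMap_eq]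
      rw [Finset.prod_mul_distrib, Finset.prod_const, Finset.card_univ, Fintype.card_fin,
        pow_add, pow_mul]
      generalize ∏ r, T.δ (s r) (T.x (l r) / T.x i) = P
      generalize T.x i ^ e * a = z
      generalize T.x i / T.x j = w
      simp only [C_mul, C_pow]
      ring
    rw [h4]
    exact h3
  | zero => exact ⟨0, by rw [smul_zero]; exact Submodule.zero_mem _⟩
  | add v w _ _ h1 h2 =>
    obtain ⟨N, h1⟩ := h1
    obtain ⟨M, h2⟩ := h2
    refine ⟨N + M, ?_⟩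
    rw [smul_add, pow_add, mul_smul, mul_smul, smul_comm _ _ v]
    exact Submodule.add_mem _ (hst k e m q j _ (pow_mem hw _) _ h1)
      (hst k e m q j _ (pow_mem hw _) _ h2)
  | smul c v _ h1 =>
    obtain ⟨N, h1⟩ := h1
    exact ⟨N, by rw [smul_comm]; exact Submodule.smul_mem _ c h1⟩

theorem sym_GG (k : ℕ) (e : ℤ) (m q : ℕ) : T.Sym (T.GG k e m q) :=
  T.sym_of (stable_GG T hF k e m q) (GG_change T hF k e m q)

theorem sym_GP (k p : ℕ) (e : ℤ) (m q : ℕ) : T.Sym (T.GP k p e m q) := by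
  refine T.sym_of (stable_GP T hF k p e m q) fun i j v hv => ?_
  have hw := T.sym_x_mem j i
  have hst := stable_GP T hF
  unfold GP at hv
  induction hv using Submodule.span_induction with
  | mem v hv =>
    obtain ⟨c, m', q', g, hg, hq, hm, rfl⟩ := hv
    obtain ⟨N, hN⟩ := GG_change T hF k _ m' q' i j g hg
    refine ⟨N, Submodule.subset_span ⟨c, m', q', _, hN, hq, hm, ?_⟩⟩
    rw [mul_smul_comm]
  | zero => exact ⟨0, by rw [smul_zero]; exact Submodule.zero_mem _⟩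
  | add v w _ _ h1 h2 =>
    obtain ⟨N, h1⟩ := h1
    obtain ⟨M, h2⟩ := h2
    refine ⟨N + M, ?_⟩
    rw [smul_add, pow_add, mul_smul, mul_smul, smul_comm _ _ v]
    exact Submodule.add_mem _ (hst k p e m q j _ (pow_mem hw _) _ h1)
      (hst k p e m q j _ (pow_mem hw _) _ h2)
  | smul c v _ h1 =>
    obtain ⟨N, h1⟩ := h1
    exact ⟨N, by rw [smul_comm]; exact Submodule.smul_mem _ c h1⟩

end Pool.Agent.H47.UG.FF
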